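import Mathlib

/-!
# The published facts about discrepancies and about the program

`X` is a smooth projective variety with `K_X ~ 0`, `D` the set of the prime divisors on its models, `a_E` the
discrepancies, `x` a b-divisor, `x ≥ 0`, such that `L - x` is nef, and `lam x_E < lam' x_E ≤ a_E + 1` for all
`E` with `x_E > 0`. `Y_0 → X` is `ℚ`-factorial, its exceptional divisors are the `E` with `a_E ≤ lam x_E`
(Birkar, Cascini, Hacon and McKernan 2010), `F_j` are the prime divisors of `Y_0` with `x_j > 0`,
`K = ∑ a_j F_j`. The generalized pair `(Y_0, ∑ (lam x_j - a_j) F_j + M)`, `M` a multiple of `L - s x`,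
`0 < s ≤ 1`, has the discrepancies `a_E - lam x_E > 0` at the divisors which are exceptional over `Y_0`. We
consider a sequence of steps `Y_0 ⇢ Y_1 ⇢ ...` of the program for `L - t ∑ x_j F_j`, `t > 0` small. They are
small, `L`-trivial, and crepant for the generalized pair.
-/

namespace Pool.Agent.H33.FT

variable {D : Type}

/-- The log canonical threshold `c` of a closed positive current with the Lelong numbers `nu E` is computed
by a quasi-monomial valuation `v` (Jonsson and Mustaţă 2012, 2014, Xu 2020). It lies in the interior of the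
cone of the monomial valuations at a component of the intersection of the divisors `E i` of a log smooth
model, which are given by their weights. -/
structure Quasi (D : Type) (a : D → ℕ) (nu : D → ℝ) (c : ℝ) where
  r : ℕ
  E : Fin r → D
  v : Fin r → ℝ
  v_pos : ∀ i, 0 < v i
  /-- the generic Lelong number of the current for the monomial valuation with the weights `w`; it is a limit
  of minima of linear functions of the weights -/
  n : (Fin r → ℝ) → ℝ
  n_add : ∀ w w', (∀ i, 0 < w i) → (∀ i, 0 < w' i) → n w + n w' ≤ n (w + w')
  n_smul : ∀ (t : ℝ) w, 0 < t → (∀ i, 0 < w i) → n (t • w) = t * n w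
  /-- the log discrepancy of the valuation with the weights `w` is `∑ w_i (a(E_i) + 1)`, and `v` computes `c` -/
  comp : ∑ i, v i * (a (E i) + 1) = c * n v
  /-- a valuation with integral weights is a multiple of the order of vanishing along a prime divisor -/
  div : ∀ w : Fin r → ℕ, (∀ i, 0 < w i) → ∃ (F : D) (k : ℕ), 0 < k ∧
    ∑ i, (w i * (a (E i) + 1) : ℝ) = k * (a F + 1) ∧ n (fun i => w i) = k * nu F

/-- Let `Y` be `X` or `Y_0`, and `x` a b-divisor as above or the b-divisor of the Lelong numbers of a current in
the class `L`. `W` is a log resolution of `Y`, of the divisors `F_j` (for `Y = Y_0`) and of an approximation of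
`x` by ideals. `G_l` are the prime divisors of `W` which are exceptional over `Y`, the `F_j`, and the components
of the approximation. `Ex E` says that `E` is exceptional over `Y`. -/
structure LogRes (a : D → ℕ) (x : D → ℝ) (Ex : D → Prop) (e : ℝ) where
  N : ℕ
  G : Fin N → D
  /-- the multiplicity of `G_l` along `E` -/
  m : D → Fin N → ℕ
  /-- the log discrepancy of `E` for the pair `(W, ∑ G_l)`, which is log canonical -/
  A : D → ℕ
  /-- the log discrepancy of `E` over `X` is `∑ (a_l + 1) m_l` plus the one for `(W, ∑ G_l)` -/
  disc : ∀ E, (a E + 1 : ℝ) = ∑ l, (a (G l) + 1 : ℝ) * m E l + A E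
  /-- Demailly 1992, Demailly, Ein and Lazarsfeld 2000: the approximation `x'`, a divisor on `W`, satisfies
  `x' ≤ x ≤ x' + e (a + 1)` -/
  approx : ∀ E, x E ≤ ∑ l, x (G l) * m E l + e * (a E + 1)
  /-- the divisors of log discrepancy zero are the monomial valuations of the strata -/
  fin : ∀ v : Fin N → ℕ, {E | A E = 0 ∧ m E = v}.Finite
  /-- the log discrepancy of a divisor which is exceptional over `W` is at least two -/
  two : ∀ E, Ex E → (∀ l, m E l = 0) → 2 ≤ A E

/-- `S E` says that the centre of `E` on `Y_0` has codimension two, and `w_E` is the multiplicity along `E` of the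
pull back of `∑ x_j F_j`. -/
structure Count (a : D → ℕ) (x : D → ℝ) (Ex S : D → Prop) (lam : ℝ) (w : D → ℝ) (e : ℝ) extends
    LogRes a x Ex e where
  /-- If the centre of `E` is contained in `F_i` and `F_j` then `F_i` and `F_j` meet on `Y_0` in codimension two;
  `E'` is the blow up of a component. -/
  meet : ∀ E l l', Ex E → l ≠ l' → 0 < m E l → 0 < m E l' → ¬ Ex (G l) → ¬ Ex (G l') →
    ∃ E', Ex E' ∧ a E' - lam * x E' ≤ 1 - (lam * x (G l) - a (G l)) - (lam * x (G l') - a (G l'))
  /-- If the centre of `E` is contained in `F_j` and in no other `G_l` and the log discrepancy for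
  `(W, ∑ G_l)` is one then the centre has codimension two in `W`, and `W → Y_0` is an isomorphism at its
  generic point. `E` is the weighted blow up with the weights `m_l` for `F_j` and `1`. -/
  surf : ∀ E l, Ex E → ¬ Ex (G l) → 0 < m E l → (∀ l', l' ≠ l → m E l' = 0) → A E = 1 → S E
  /-- the prime divisors of the `F_j` -/
  Q : Type
  Z : D → Q
  Z_inj : ∀ E E' l, Ex E → Ex E' → ¬ Ex (G l) → 0 < m E l → (∀ l', l' ≠ l → m E l' = 0) →
    (∀ l', l' ≠ l → m E' l' = 0) → m E l = m E' l → A E = 1 → A E' = 1 → Z E = Z E' → E = E'
  /-- The class of `L - ∑ x_j F_j`, plus a small ample class, contains an effective divisor which does not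
  contain the `F_j` and the multiplicities of which are, up to a small number, at least `x_E - w_E`, because
  `L - x` is nef. Its restriction to `F_j` has at least this multiplicity along `Z_E`; `q` are these
  multiplicities, and `M` is a bound for its degree. -/
  M : ℝ
  gen : ∀ l, ¬ Ex (G l) → ∀ (T : Finset D) (e' : ℝ), 0 < e' → ∃ q : Q → ℝ, (∀ s, 0 ≤ q s) ∧
    (∀ R : Finset Q, ∑ s ∈ R, q s ≤ M) ∧
    ∀ E ∈ T, Ex E → 0 < m E l → (∀ l', l' ≠ l → m E l' = 0) → A E = 1 → x E - w E ≤ q (Z E) + e'

/-- `E` is exceptional over `Y_0` (`X E` says that `E` is a prime divisor of `X`) -/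
def Exc (X : D → Prop) (a : D → ℕ) (x : D → ℝ) (lam : ℝ) (E : D) : Prop := ¬ X E ∧ lam * x E < a E

/-- An infinite sequence of steps. `J` is the set of the divisors `F_j`. -/
structure Prog (X : D → Prop) (a : D → ℕ) (x : D → ℝ) (lam : ℝ) (J : Finset D) where
  /-- the centre of `E` on `Y_i` has codimension two -/
  Surf : ℕ → D → Prop
  /-- the centre of `E` on `Y_i` lies in the locus of step `i`; equivalently, its centre on `Y_(i+1)` lies
  in the locus created by the step -/
  Inv : ℕ → D → Prop
  /-- the multiplicity along `E` of the pull back of `F_j` on `Y_i` -/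
  ord : ℕ → D → J → ℝ
  nonneg : ∀ i E j, Exc X a x lam E → 0 ≤ ord i E j
  /-- a terminal variety is smooth in codimension two -/
  int : ∀ i E, Exc X a x lam E → Surf i E → ∀ j, ∃ z : ℕ, ord i E j = z
  /-- negativity lemma: the pull back of the class of `L - x` on `Y_i` is at least `L - x`, since this is nef -/
  le : ∀ i E, Exc X a x lam E → ∑ j : J, x j * ord i E j ≤ x E
  /-- the step is an isomorphism at the generic point of the centre -/
  iso : ∀ i E, Exc X a x lam E → ¬ Inv i E → ∀ j, ord (i + 1) E j = ord i E j
  /-- negativity lemma -/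
  lt : ∀ i E, Exc X a x lam E → Inv i E → ∑ j : J, x j * ord i E j < ∑ j : J, x j * ord (i + 1) E j
  /-- If the locus created by step `i` contains a subvariety `S` of codimension two then `S` is contained in
  some `F_j`, since `L` has degree zero and `L - t ∑ x_j F_j` positive degree on the created curves. `E'` is the
  blow up of `S`, its discrepancy for the generalized pair is at most one minus the multiplicity of the
  boundary. -/
  created : ∀ i E, Exc X a x lam E → Inv i E → Surf (i + 1) E →
    ∃ E', Exc X a x lam E' ∧ Inv i E' ∧ Surf (i + 1) E' ∧ (∃ j, 0 < ord (i + 1) E' j) ∧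
      a E' - lam * x E' ≤ 1 - ∑ j : J, (lam * x j - a j) * ord (i + 1) E' j
  /-- the dimension of the span of the classes of surfaces in `H_4(Y_i, ℚ)` -/
  rk : ℕ → ℕ
  /-- Kawamata, Matsuda, Matsuki 1987, 5-1-15 to 5-1-17 -/
  kmm : ∀ i, (∀ E, Exc X a x lam E → Inv i E → ¬ Surf (i + 1) E) → rk (i + 1) < rk i
  res : ∀ e : ℝ, 0 < e →
    Nonempty (Count a x (Exc X a x lam) (Surf 0) lam (fun E => ∑ j : J, x j * ord 0 E j) e)

end Pool.Agent.H33.FT
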