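import Pool.Agent.H33.TF.Data

/-!
# The log canonical threshold and the divisors of small log discrepancy

Consequences of the approximation of a b-divisor by ideals: the log canonical threshold is positive (Skoda),
and there are only finitely many exceptional divisors the log discrepancy of which is at most one if the pair
is klt.
-/

namespace Pool.Agent.H33.FT

open Finset

variable {D : Type}

namespace LogRes

variable {a : D → ℕ} {x : D → ℝ} {Ex : D → Prop} {e : ℝ} (R : LogRes a x Ex e)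

include R in
/-- the quotients `x_E / (a_E + 1)` are bounded -/
theorem exists_le (he : 0 ≤ e) (hx : ∀ E, 0 ≤ x E) : ∃ K : ℝ, 0 < K ∧ ∀ E, x E ≤ K * (a E + 1) := by
  refine ⟨∑ l, x (R.G l) + e + 1, ?_, fun E => ?_⟩
  · have := sum_nonneg fun l (_ : l ∈ (univ : Finset (Fin R.N))) => hx (R.G l)
    linarith
  have ha : (1 : ℝ) ≤ a E + 1 := by
    have : (0 : ℝ) ≤ a E := Nat.cast_nonneg _
    linarith
  have hm : ∀ l, (R.m E l : ℝ) ≤ a E + 1 := by
    intro l
    have h1 := R.disc E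
    have h2 : (a (R.G l) + 1 : ℝ) * R.m E l ≤ ∑ l, (a (R.G l) + 1 : ℝ) * R.m E l :=
      single_le_sum (f := fun l => (a (R.G l) + 1 : ℝ) * (R.m E l : ℝ))
        (fun l _ => by positivity) (mem_univ l)
    have h3 : (R.m E l : ℝ) ≤ (a (R.G l) + 1 : ℝ) * R.m E l := by
      have h4 : (0 : ℝ) ≤ a (R.G l) := Nat.cast_nonneg _
      have h5 : (0 : ℝ) ≤ R.m E l := Nat.cast_nonneg _
      nlinarith
    have h4 : (0 : ℝ) ≤ R.A E := Nat.cast_nonneg _
    linarith
  have h1 := R.approx E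
  have h2 : ∑ l, x (R.G l) * R.m E l ≤ (∑ l, x (R.G l)) * (a E + 1) := by
    rw [sum_mul]
    exact sum_le_sum fun l _ => mul_le_mul_of_nonneg_left (hm l) (hx _)
  nlinarith

include R in
/-- Skoda's theorem: the log canonical threshold is positive -/
theorem lct_pos (he : 0 ≤ e) (hx : ∀ E, 0 ≤ x E) : ∃ c : ℝ, 0 < c ∧ ∀ E, c * x E ≤ a E + 1 := by
  obtain ⟨K, hK, h⟩ := R.exists_le he hx
  refine ⟨1 / K, by positivity, fun E => ?_⟩
  rw [one_div, inv_mul_le_iff₀ hK]
  exact h E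

include R in
/-- the log canonical threshold -/
theorem lct (he : 0 ≤ e) (hx : ∀ E, 0 ≤ x E) (hpos : ∃ E, 0 < x E) :
    ∃ c : ℝ, 0 < c ∧ (∀ E, c * x E ≤ a E + 1) ∧ ∀ c', c < c' → ∃ E, a E + 1 < c' * x E := by
  obtain ⟨c0, hc0, h0⟩ := R.lct_pos he hx
  obtain ⟨E0, hE0⟩ := hpos
  set S : Set ℝ := {c | ∀ E, c * x E ≤ a E + 1} with hS
  have hbdd : BddAbove S := by
    refine ⟨(a E0 + 1) / x E0, fun c hc => ?_⟩
    rw [le_div_iff₀ hE0]
    exact hc E0
  have hne : S.Nonempty := ⟨c0, h0⟩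
  refine ⟨sSup S, lt_of_lt_of_le hc0 (le_csSup hbdd h0), fun E => ?_, fun c' hc' => ?_⟩
  · rcases eq_or_lt_of_le (hx E) with h | h
    · rw [← h, mul_zero]; positivity
    · rw [← le_div_iff₀ h]
      exact csSup_le hne fun c hc => by rw [le_div_iff₀ h]; exact hc E
  · by_contra hcon
    push Not at hcon
    exact absurd (le_csSup hbdd (show c' ∈ S from hcon)) (not_le.2 hc')

end LogRes

/-- Let `lam` be smaller than the log canonical threshold. There are only finitely many exceptional divisors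
the log discrepancy of which is at most one. -/
theorem finite_of_logRes {a : D → ℕ} {x : D → ℝ} {Ex : D → Prop}
    (app : ∀ e : ℝ, 0 < e → Nonempty (LogRes a x Ex e)) {lam lam' : ℝ}
    (hlam : 0 < lam) (hlam' : lam < lam') (hlct : ∀ E, lam' * x E ≤ a E + 1) :
    {E | Ex E ∧ 0 < x E ∧ a E ≤ lam * x E}.Finite := by
  classical
  have hl : 0 < lam' := hlam.trans hlam'
  obtain ⟨s, hs, hs1, hls⟩ : ∃ s : ℝ, 0 < s ∧ s < 1 ∧ ∀ E, lam * x E ≤ (1 - s) * (a E + 1) := by
    refine ⟨1 - lam / lam', ?_, ?_, fun E => ?_⟩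
    · rw [sub_pos, div_lt_one hl]; exact hlam'
    · have : 0 < lam / lam' := by positivity
      linarith
    · rw [sub_sub_cancel, div_mul_eq_mul_div, le_div_iff₀ hl]
      have := mul_le_mul_of_nonneg_left (hlct E) hlam.le
      linarith
  have he : 0 < s ^ 2 / (2 * lam) := by positivity
  obtain ⟨R⟩ := app _ he
  have hle : lam * (s ^ 2 / (2 * lam)) = s ^ 2 / 2 := by field_simp
  -- the discrepancies are bounded
  have ha : ∀ E, a E ≤ lam * x E → (a E + 1 : ℝ) ≤ 1 / s := by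
    intro E hE
    rw [le_div_iff₀ hs]
    have := hls E
    linarith
  have hm : ∀ E, a E ≤ lam * x E → ∀ l, (R.m E l : ℝ) ≤ 1 / s := by
    intro E hE l
    refine le_trans ?_ (ha E hE)
    have h1 := R.disc E
    have h2 : (a (R.G l) + 1 : ℝ) * R.m E l ≤ ∑ l, (a (R.G l) + 1 : ℝ) * R.m E l :=
      single_le_sum (f := fun l => (a (R.G l) + 1 : ℝ) * (R.m E l : ℝ))
        (fun l _ => by positivity) (mem_univ l)
    have h3 : (R.m E l : ℝ) ≤ (a (R.G l) + 1 : ℝ) * R.m E l := by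
      have h4 : (0 : ℝ) ≤ a (R.G l) := Nat.cast_nonneg _
      have h5 : (0 : ℝ) ≤ R.m E l := Nat.cast_nonneg _
      nlinarith
    have h4 : (0 : ℝ) ≤ R.A E := Nat.cast_nonneg _
    linarith
  -- they are monomial valuations
  have hA : ∀ E, Ex E → a E ≤ lam * x E → R.A E = 0 := by
    intro E hex hE
    by_contra hA0
    have hA1 : (1 : ℝ) ≤ R.A E := by exact_mod_cast Nat.one_le_iff_ne_zero.2 hA0
    have h1 := R.disc E
    have h2 := mul_le_mul_of_nonneg_left (R.approx E) hlam.le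
    have h3 := ha E hE
    have h4 : lam * (s ^ 2 / (2 * lam) * (a E + 1)) ≤ s / 2 := by
      rw [← mul_assoc, hle]
      have h5 : s ^ 2 / 2 * (a E + 1 : ℝ) ≤ s ^ 2 / 2 * (1 / s) :=
        mul_le_mul_of_nonneg_left h3 (by positivity)
      have h6 : s ^ 2 / 2 * (1 / s) = s / 2 := by field_simp
      linarith
    have h5 : ∑ l, (a (R.G l) + 1 - lam * x (R.G l)) * (R.m E l : ℝ) + R.A E ≤ 1 + s / 2 := by
      have h6 : ∑ l, (a (R.G l) + 1 - lam * x (R.G l)) * (R.m E l : ℝ) =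
          ∑ l, (a (R.G l) + 1 : ℝ) * R.m E l - lam * ∑ l, x (R.G l) * R.m E l := by
        rw [mul_sum, ← sum_sub_distrib]
        exact sum_congr rfl fun l _ => by ring
      rw [h6]
      rw [mul_add] at h2
      linarith
    have hc : ∀ l, s ≤ a (R.G l) + 1 - lam * x (R.G l) := by
      intro l
      have h6 := hls (R.G l)
      have h7 : (0 : ℝ) ≤ a (R.G l) := Nat.cast_nonneg _
      nlinarith
    have hnn : ∀ l ∈ (univ : Finset (Fin R.N)), 0 ≤ (a (R.G l) + 1 - lam * x (R.G l)) *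
        (R.m E l : ℝ) := fun l _ => mul_nonneg (hs.le.trans (hc l)) (Nat.cast_nonneg _)
    by_cases hz : ∀ l, R.m E l = 0
    · have h6 : (2 : ℝ) ≤ R.A E := by exact_mod_cast R.two E hex hz
      have h7 := sum_nonneg hnn
      linarith
    · push Not at hz
      obtain ⟨l, hl0⟩ := hz
      have h6 : (1 : ℝ) ≤ R.m E l := by exact_mod_cast Nat.one_le_iff_ne_zero.2 hl0
      have h7 := single_le_sum hnn (mem_univ l)
      have h8 := hc l
      beta_reduce at h7
      nlinarith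
  obtain ⟨K, hK⟩ := exists_nat_gt (1 / s)
  have h1 : (Set.pi Set.univ fun _ => Set.Iic K : Set (Fin R.N → ℕ)).Finite :=
    Set.Finite.pi fun _ => Set.finite_Iic _
  refine (h1.biUnion fun v _ => R.fin v).subset ?_
  rintro E ⟨hex, -, hE⟩
  refine Set.mem_biUnion (show R.m E ∈ _ from fun l _ => ?_) ⟨hA E hex hE, rfl⟩
  have h2 : (R.m E l : ℝ) < K := lt_of_le_of_lt (hm E hE l) hK
  exact_mod_cast h2.le

end Pool.Agent.H33.FT
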