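import Pool.Agent.H15.XF.Old
import Pool.Agent.H33.TF.Fin
import Pool.Agent.H33.TF.Quasi
import Pool.Agent.H33.TF.Prog

/-!
# The log canonical threshold of a current, and the finiteness of the divisors of small log discrepancy
-/

namespace Pool.Agent.H15.XF

open Pool.Agent.H33.FT

variable {r : ℕ} {B : BCl r} {L : Fin r → ℝ}

theorem Cur.nu_nonneg (C : Cur B L) (T : C.C) (E : B.D) : 0 ≤ C.nu T E := by
  obtain ⟨v, hv, hv'⟩ := C.nef T
  rw [← hv']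
  exact hv.2.2 E

namespace Sys

variable {C : Cur B L} {chiO : ℤ} {Frm : ℕ → Prop} (S : Sys C chiO Frm)

theorem lct_pos (T : C.C) : ∃ c : ℝ, 0 < c ∧ ∀ E, c * C.nu T E ≤ S.a E + 1 := by
  obtain ⟨R⟩ := S.app T 1 one_pos
  exact R.lct_pos zero_le_one (C.nu_nonneg T)

theorem lct (T : C.C) (h : ∃ E, 0 < C.nu T E) : ∃ c : ℝ, 0 < c ∧
    (∀ E, c * C.nu T E ≤ S.a E + 1) ∧ Nonempty (Quasi B.D S.a (C.nu T) c) := by
  obtain ⟨R⟩ := S.app T 1 one_pos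
  obtain ⟨c, hc, h1, h2⟩ := R.lct zero_le_one (C.nu_nonneg T) h
  exact ⟨c, hc, h1, S.quasi T c hc h1 h2⟩

theorem fin (T : C.C) (lam lam' : ℝ) (hl : 0 < lam) (hl' : lam < lam')
    (h : ∀ E, lam' * C.nu T E ≤ S.a E + 1) :
    {E | ¬ B.X E ∧ 0 < C.nu T E ∧ S.a E ≤ lam * C.nu T E}.Finite :=
  finite_of_logRes (S.app T) hl hl' h

/-- the program stops, or there are the data of `Steps` -/
theorem steps (T : C.C) (lam lam' : ℝ) (hl : 0 < lam) (hl' : lam < lam')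
    (h : ∀ E, lam' * C.nu T E ≤ S.a E + 1) (hX : {G | B.X G ∧ 0 < C.nu T G}.Finite)
    (hne : ∀ E, 0 < C.nu T E → (S.a E : ℝ) ≠ lam * C.nu T E) :
    Nonempty Pool.Agent.H87.FB.Steps ∨ Nonempty (Res C S.a chiO Frm T lam) := by
  classical
  have hfin : {E | 0 < C.nu T E ∧ (B.X E ∨ S.a E < lam * C.nu T E)}.Finite := by
    refine (hX.union (S.fin T lam lam' hl hl' h)).subset ?_
    rintro E ⟨h1, h2⟩
    by_cases hE : B.X E
    · exact Or.inl ⟨hE, h1⟩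
    · exact Or.inr ⟨hE, h1, (h2.resolve_left hE).le⟩
  have hJ : ∀ E, E ∈ hfin.toFinset ↔ 0 < C.nu T E ∧ (B.X E ∨ S.a E < lam * C.nu T E) := fun E => by
    rw [Set.Finite.mem_toFinset, Set.mem_setOf_eq]
  exact (S.prog T lam lam' hfin.toFinset hl hl' h hJ hne).imp
    (fun ⟨P⟩ => P.steps hl hl' h (C.nu_nonneg T) S.a_X fun E hE => (hJ E).1 hE)
    fun ⟨M⟩ => ⟨M.res (fun E h1 h2 => (hJ E).2 ⟨h1, Or.inr h2⟩) fun E hE => ((hJ E).1 hE).1⟩

end Sys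

end Pool.Agent.H15.XF
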